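import Pool.Agent.H54.CT2.Seq2
import Pool.Agent.H54.CT.Cnt
import Pool.Agent.H54.CT.Few
import Pool.Agent.H54.CT.Fin

/-!
# Ears and polygons with few vertices, for a general bound of the number of positions

Same proofs as `ears_bound`, `few_vertices`.
-/

set_option autoImplicit false

namespace Pool.Agent.H54.CT2

open Pool.Agent.H54.CT

/-- a bound for the number of positions with two labels -/
def TotB (Φ n : ℕ) : Prop := ∀ (X : Finset ℕ) (i j : ℕ → Fin n),
  (X.image i).card ≤ n → (X.image j).card ≤ n → ¬ Alt 71 (rel X i) → ¬ Alt 71 (rel X j) →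
    (∀ a b, (X.filter fun t => i t = a ∧ j t = b).card ≤ 3) → X.card ≤ n * Φ

theorem ears_bound2 (Φ : ℕ) {n : ℕ} (hΦ : TotB Φ n) (V : Fin n → Finset (ℝ × ℝ))
    (hint : ∀ i j, (hull (V i) ∩ hull (V j)).Nonempty)
    (hdis : ∀ i j k, i ≠ j → j ≠ k → i ≠ k → hull (V i) ∩ hull (V j) ∩ hull (V k) = ∅)
    (E : Finset (Fin n × (ℝ × ℝ))) (hv : ∀ e ∈ E, e.2 ∈ V e.1)
    (hE : ∀ e ∈ E, ∃ (s c : ℝ) (j : Fin n), (∀ w ∈ V e.1, w ≠ e.2 → w.2 - s * w.1 < c) ∧
      ∀ w ∈ V j, c < w.2 - s * w.1) :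
    E.card ≤ n * Φ := by
  classical
  rcases E.eq_empty_or_nonempty with h0 | hne
  · rw [h0]; simp
  obtain ⟨s, hs, hsE⟩ := slopes V E hE
  have hex : ∀ e : Fin n × (ℝ × ℝ), ∃ (g : ℝ) (j : Fin n), e ∈ E →
      (∀ w ∈ V e.1, w ≠ e.2 → w.2 - s e * w.1 < g) ∧ (∀ w ∈ V j, g ≤ w.2 - s e * w.1) ∧
      ∀ k, ∃ x : ℝ, (x, s e * x + g) ∈ hull (V k) := by
    intro e
    by_cases he : e ∈ E
    · obtain ⟨c, j0, h1, h2⟩ := hsE e he
      obtain ⟨g, j, hcg, h3, h4⟩ := line_exists V hint (s e) c j0 h2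
      exact ⟨g, j, fun _ => ⟨fun w hw hwe => (h1 w hw hwe).trans hcg, h3, h4⟩⟩
    · exact ⟨0, e.1, fun h => absurd h he⟩
  choose gE jE hgj using hex
  obtain ⟨φ, hφE, hφ⟩ := ct_enum E hne s hs
  set X := Finset.range E.card with hX
  have hinj : ∀ t ∈ X, ∀ t' ∈ X, t ≠ t' → φ t ≠ φ t' := by
    intro t ht t' ht' hne h
    rcases lt_or_gt_of_ne hne with h1 | h1
    · have := hφ t ht t' ht' h1
      rw [h] at this
      exact lt_irrefl _ this
    · have := hφ t' ht' t ht h1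
      rw [h] at this
      exact lt_irrefl _ this
  have hcard : ∀ f : ℕ → Fin n, (X.image f).card ≤ n := by
    intro f
    have := Finset.card_le_univ (X.image f)
    rwa [Fintype.card_fin] at this
  have hkey := hΦ X (fun t => (φ t).1) (fun t => jE (φ t)) (hcard _) (hcard _)
    (no_alt_up V hdis X (fun t => s (φ t)) (fun t => gE (φ t)) hφ
      (fun t _ k => (hgj (φ t) (hφE t)).2.2 k) (fun t => (φ t).1) (fun t => (φ t).2)
      (fun t _ => hv _ (hφE t))
      (fun t ht t' ht' hne h1 h2 => hinj t ht t' ht' hne (Prod.ext h1 h2))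
      (fun t _ => (hgj (φ t) (hφE t)).1))
    (fun hA => no_alt_low V hdis X (fun t => s (φ t)) (fun t => gE (φ t)) hφ
      (fun t _ k => (hgj (φ t) (hφE t)).2.2 k) (fun t => jE (φ t))
      (fun t _ => (hgj (φ t) (hφE t)).2.1) (alt_le (by norm_num) hA)) ?_
  · rwa [hX, Finset.card_range] at hkey
  intro a b
  obtain ⟨y, hya, hyb⟩ := hint a b
  obtain ⟨W, hWV, hW3, hyW⟩ := ct_carath hya
  refine le_trans (Finset.card_le_card_of_injOn (fun t => (φ t).2) ?_ ?_) hW3
  · intro t ht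
    rw [Finset.mem_coe, Finset.mem_filter] at ht
    obtain ⟨htX, hta, htb⟩ := ht
    by_contra hc
    rw [Finset.mem_coe] at hc
    have h1 := (hgj (φ t) (hφE t)).1
    have h2 := (hgj (φ t) (hφE t)).2.1
    rw [hta] at h1
    rw [htb] at h2
    have h3 : y.2 - s (φ t) * y.1 < gE (φ t) := by
      refine ct_lt_hull (fun w hw => h1 w (hWV hw) ?_) hyW
      rintro rfl
      exact hc hw
    have h4 := ct_ge_hull h2 hyb
    linarith
  · intro t ht t' ht' h
    rw [Finset.mem_coe, Finset.mem_filter] at ht ht'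
    by_contra hne
    apply hinj t ht.1 t' ht'.1 hne
    exact Prod.ext (ht.2.1.trans ht'.2.1.symm) h


theorem few_vertices2 (Φ : ℕ) {n : ℕ} (hΦ : TotB Φ n) {χ : Fin n → Fin n → Fin n → SignType}
    {A : Fin n → Set (ℝ × ℝ)} (h : Realizes A χ) :
    ∃ V : Fin n → Finset (ℝ × ℝ), Realizes (fun i => hull (V i)) χ ∧
      ∑ i, (V i).card ≤ n * (2 * Φ + 1) := by
  classical
  obtain ⟨hconv, hint, hdis, hor⟩ := h
  obtain ⟨V, hVA, hVint, hVmin⟩ := min_family A hconv hint
  have hsub : ∀ i, hull (V i) ⊆ A i := fun i => convexHull_min (hVA i) (hconv i)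
  have hdis' : ∀ i j k, i ≠ j → j ≠ k → i ≠ k → hull (V i) ∩ hull (V j) ∩ hull (V k) = ∅ := by
    intro i j k hij hjk hik
    rw [← Set.subset_empty_iff, ← hdis i j k hij hjk hik]
    exact Set.inter_subset_inter (Set.inter_subset_inter (hsub i) (hsub j)) (hsub k)
  refine ⟨V, ⟨fun i => convex_convexHull ℝ _, hVint, hdis', ?_⟩, ?_⟩
  · intro i j k hij hjk hik p hp q hq r hr
    exact hor i j k hij hjk hik p ⟨hsub i hp.1, hsub j hp.2⟩ q ⟨hsub j hq.1, hsub k hq.2⟩ r
      ⟨hsub k hr.1, hsub i hr.2⟩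
  set Q : Fin n × (ℝ × ℝ) → Prop := fun e => ∃ (s c : ℝ) (j : Fin n),
    (∀ w ∈ V e.1, w ≠ e.2 → w.2 - s * w.1 < c) ∧ ∀ w ∈ V j, c < w.2 - s * w.1 with hQ
  have hE1 : ((fewE V).filter Q).card ≤ n * Φ := by
    refine ears_bound2 Φ hΦ V hVint hdis' _ ?_ ?_
    · intro e he
      exact ((few_mem_E V e).1 (Finset.mem_filter.1 he).1).1
    · intro e he
      exact (Finset.mem_filter.1 he).2
  have hE2 : ((fewE V).filter fun e => ¬ Q e).card ≤ n * Φ := by
    have hinj : Function.Injective (fun e : Fin n × (ℝ × ℝ) => (e.1, fewRefl e.2)) := by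
      intro e e' h
      have h1 := (Prod.ext_iff.1 h).1
      have h2 : fewRefl e.2 = fewRefl e'.2 := (Prod.ext_iff.1 h).2
      have h3 := congrArg fewRefl h2
      rw [fewRefl_refl, fewRefl_refl] at h3
      exact Prod.ext h1 h3
    rw [← Finset.card_image_of_injective _ hinj]
    refine ears_bound2 Φ hΦ (fun i => (V i).image fewRefl) ?_ ?_ _ ?_ ?_
    · intro i j
      obtain ⟨x, hx1, hx2⟩ := hVint i j
      refine ⟨fewRefl x, ?_, ?_⟩
      · rw [few_mem_hull, fewRefl_refl]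
        exact hx1
      · rw [few_mem_hull, fewRefl_refl]
        exact hx2
    · intro i j k hij hjk hik
      rw [Set.eq_empty_iff_forall_notMem]
      rintro x ⟨⟨hx1, hx2⟩, hx3⟩
      rw [few_mem_hull] at hx1 hx2 hx3
      have h4 : fewRefl x ∈ hull (V i) ∩ hull (V j) ∩ hull (V k) := ⟨⟨hx1, hx2⟩, hx3⟩
      rw [hdis' i j k hij hjk hik] at h4
      exact h4
    · intro e he
      obtain ⟨e', he', rfl⟩ := Finset.mem_image.1 he
      exact Finset.mem_image_of_mem _ ((few_mem_E V e').1 (Finset.mem_filter.1 he').1).1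
    · intro e he
      obtain ⟨e', he', rfl⟩ := Finset.mem_image.1 he
      obtain ⟨h1, h2⟩ := Finset.mem_filter.1 he'
      obtain ⟨h3, h4⟩ := (few_mem_E V e').1 h1
      obtain ⟨j, hj⟩ := hVmin e'.1 e'.2 h3 h4
      obtain ⟨a, b, c, hb, hU, hW⟩ := sep2 _ _ hj
      have hb' : b < 0 := by
        by_contra hcon
        have hbpos : 0 < b := lt_of_le_of_ne (not_lt.1 hcon) hb.symm
        apply h2
        refine ⟨-a / b, c / b, j, ?_, ?_⟩
        · intro w hw hne
          have h5 := hU w (Finset.mem_erase.2 ⟨hne, hw⟩)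
          rw [lt_div_iff₀ hbpos]
          have h6 : (w.2 - -a / b * w.1) * b = a * w.1 + b * w.2 := by
            field_simp
            ring
          rw [h6]
          exact h5
        · intro w hw
          have h5 := hW w hw
          rw [div_lt_iff₀ hbpos]
          have h6 : (w.2 - -a / b * w.1) * b = a * w.1 + b * w.2 := by
            field_simp
            ring
          rw [h6]
          exact h5
      have hbn : 0 < -b := by linarith
      have hkey : ∀ w : ℝ × ℝ, ((fewRefl w).2 - a / b * (fewRefl w).1) * (-b) =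
          a * w.1 + b * w.2 := by
        intro w
        rw [fewRefl_apply]
        field_simp
        ring
      refine ⟨a / b, c / (-b), j, ?_, ?_⟩
      · intro w hw hne
        obtain ⟨w', hw', rfl⟩ := Finset.mem_image.1 hw
        have hne' : w' ≠ e'.2 := fun h => hne (by rw [h])
        have h5 := hU w' (Finset.mem_erase.2 ⟨hne', hw'⟩)
        rw [lt_div_iff₀ hbn, hkey]
        exact h5
      · intro w hw
        obtain ⟨w', hw', rfl⟩ := Finset.mem_image.1 hw
        have h5 := hW w' hw'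
        rw [div_lt_iff₀ hbn, hkey]
        exact h5
  have hsum := Finset.card_filter_add_card_filter_not (s := fewE V) Q
  have h5 := few_sum_le V
  have h6 : n * (2 * Φ + 1) = n * Φ + n * Φ + n := by ring
  omega



theorem cto_upper_nat2 (Φ n : ℕ) (hn : 1 ≤ n) (hΦ : TotB Φ n) (m : ℕ) (hm4 : 4 ≤ m)
    (hm : 4 * (n * (2 * Φ + 1)) ≤ m) (hnm : n ≤ m) : cto n ≤ m ^ (38 * m) := by
  have h1 := count_bound n m hn hm4 (fun χ hχ => by
    obtain ⟨_, A, hA⟩ := hχ
    obtain ⟨V, hV, hc⟩ := few_vertices2 Φ hΦ hA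
    exact ⟨V, hV, (Nat.mul_le_mul_left 4 hc).trans hm⟩)
  refine h1.trans ?_
  have e1 : 8 * (m ^ 3 + (n * m ^ 4) ^ 3) + 3 ≤ m ^ 18 := by
    have a1 : (n * m ^ 4) ^ 3 ≤ m ^ 15 := by
      calc (n * m ^ 4) ^ 3 ≤ (m * m ^ 4) ^ 3 := by gcongr
        _ = m ^ 15 := by ring
    have a2 : m ^ 3 ≤ m ^ 15 := Nat.pow_le_pow_right (by omega) (by norm_num)
    have a3 : 64 ≤ m ^ 3 := by
      calc 64 = 4 ^ 3 := by norm_num
        _ ≤ m ^ 3 := Nat.pow_le_pow_left hm4 3
    have a4 : 1 ≤ m ^ 15 := Nat.one_le_pow _ _ (by omega)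
    calc 8 * (m ^ 3 + (n * m ^ 4) ^ 3) + 3 ≤ 8 * (m ^ 15 + m ^ 15) + 3 * m ^ 15 := by
          gcongr
          omega
      _ = 19 * m ^ 15 := by ring
      _ ≤ m ^ 3 * m ^ 15 := by gcongr; omega
      _ = m ^ 18 := by ring
  calc n ^ m * (2 * (8 * (m ^ 3 + (n * m ^ 4) ^ 3) + 3) ^ (2 * m))
      ≤ m ^ m * (m ^ m * (m ^ 18) ^ (2 * m)) := by
        gcongr
        calc 2 ≤ m := by omega
          _ = m ^ 1 := (pow_one m).symm
          _ ≤ m ^ m := Nat.pow_le_pow_right (by omega) (by omega)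
    _ = m ^ (38 * m) := by
        rw [← pow_mul, ← pow_add, ← pow_add]
        congr 1
        ring

end Pool.Agent.H54.CT2
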