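import Pool.Agent.H54.CT2.Ears2

/-!
# The number of CTOs: upper bound with the iterated logarithm
-/

set_option autoImplicit false

namespace Pool.Agent.H54.CT2

open Pool.Agent.H54.CT

theorem pow_aux (a b k N : ℕ) : (8 * (a * b ^ k)) ^ N = (8 * a) ^ N * (b ^ N) ^ k := by
  rw [← mul_assoc, mul_pow, ← pow_mul, ← pow_mul, mul_comm k N]

theorem logStar_pos {x : ℝ} (hx : 1 < x) : 1 ≤ logStar x := by
  by_contra h
  have h0 : logStar x = 0 := by omega
  have h1 := logStar_spec x
  rw [h0] at h1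
  simp only [Function.iterate_zero, id_eq] at h1
  linarith

theorem logStar_le_log {n : ℕ} (hn : 3 ≤ n) : (logStar n : ℝ) ≤ 2 * Real.log n := by
  have h1 := log_gt_one hn
  have h2 : (logStar n : ℝ) ≤ logStar (Real.log n) + 1 := by exact_mod_cast logStar_le_succ n
  have h3 := logStar_le_self (by linarith : 0 ≤ Real.log n)
  linarith

theorem cto_upper2 : ∃ K : ℕ, 1 ≤ K ∧ ∀ n : ℕ, 3 ≤ n →
    (cto n : ℝ) ≤ Real.exp ((K : ℝ) ^ logStar n * n * Real.log n) := by
  obtain ⟨m0, hm04, hm0⟩ := exists_thr 71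
  have hN : ∃ N A B : ℕ, N = 71 + 2 ∧ A = 2 ^ 71 * 2 ^ 71 ∧ B = 71 ∧ 1 ≤ A := ⟨_, _, _, rfl, rfl, rfl,
    Nat.one_le_iff_ne_zero.2 (by positivity)⟩
  obtain ⟨N, A, B, hN, hA, hB, hA1⟩ := hN
  set C1 : ℕ := 12 * (8 * m0) ^ N with hC1
  set C2 : ℕ := A ^ N with hC2
  set C3 : ℕ := C1 + 2 * C2 + 1 with hC3
  have hC1p : 1 ≤ C1 := by
    rw [hC1]
    have : 0 < (8 * m0) ^ N := by positivity
    omega
  have hC2p : 1 ≤ C2 := Nat.one_le_pow _ _ hA1
  refine ⟨38 * C1 * C3 * C2, ?_, fun n hn => ?_⟩
  · have : 0 < 38 * C1 * C3 * C2 := by positivity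
    omega
  have hL := log_gt_one hn
  set k := logStar n with hk
  have hn1 : (1 : ℝ) < n := by exact_mod_cast (by omega : 1 < n)
  have hk1 : 1 ≤ k := logStar_pos hn1
  have hiter : (Nat.log 2)^[k] (2 * n + 1) ≤ m0 := by
    refine le_trans (iter_log_le k n (2 * n + 1) (logStar_spec _) ?_) hm04
    rw [max_eq_left hn1.le]
    push_cast
    linarith
  set F := m0 * A ^ k with hF
  have hF1 : 1 ≤ F := by
    rw [hF]
    have : 0 < m0 * A ^ k := by positivity
    omega
  have hgood : Good (Fin n) B F n := by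
    rw [hF, hA, hB]
    exact good_of_iter (by norm_num) hm0 hiter
  have hΦ : TotB (Phi2 B F) n := by
    intro X i j hi hj ai aj h3
    refine total_bound2 hgood X i j hi hj ?_ ?_ h3
    · rw [hB]; exact ai
    · rw [hB]; exact aj
  set Φ := Phi2 B F with hΦdef
  have hΦle : Φ ≤ (8 * F) ^ N := by
    have := Phi2_le hF1 B
    rw [hN, ← hB]
    exact this
  set m := 4 * (n * (2 * Φ + 1)) with hm
  have hm4 : 4 ≤ m := by
    rw [hm]
    have : 1 ≤ n * (2 * Φ + 1) := Nat.one_le_iff_ne_zero.2 (by positivity)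
    omega
  have hnm : n ≤ m := by
    rw [hm]
    calc n = n * 1 := (mul_one n).symm
      _ ≤ n * (2 * Φ + 1) := Nat.mul_le_mul_left _ (by omega)
      _ ≤ 4 * (n * (2 * Φ + 1)) := Nat.le_mul_of_pos_left _ (by norm_num)
  have h1 := cto_upper_nat2 Φ n (by omega) hΦ m hm4 le_rfl hnm
  have h2 : (cto n : ℝ) ≤ (m : ℝ) ^ (38 * m) := by exact_mod_cast h1
  have hmC : m ≤ C1 * C2 ^ k * n := by
    have e1 : 1 ≤ (8 * F) ^ N := Nat.one_le_pow _ _ (by omega)
    calc m = 4 * (n * (2 * Φ + 1)) := hm
      _ ≤ 4 * (n * (2 * (8 * F) ^ N + (8 * F) ^ N)) := by gcongr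
      _ = 12 * (8 * F) ^ N * n := by ring
      _ = C1 * C2 ^ k * n := by rw [hF, pow_aux, hC1, hC2]; ring
  have hm0' : (0 : ℝ) < m := by
    have : 0 < m := by omega
    exact_mod_cast this
  have hmC' : (m : ℝ) ≤ C1 * (C2 : ℝ) ^ k * n := by exact_mod_cast hmC
  have hC1' : (1 : ℝ) ≤ C1 := by exact_mod_cast hC1p
  have hC2' : (1 : ℝ) ≤ C2 := by exact_mod_cast hC2p
  have hkL : (k : ℝ) ≤ 2 * Real.log n := logStar_le_log hn
  have hlogm : Real.log m ≤ C3 * Real.log n := by
    have c1 : Real.log m ≤ Real.log (C1 * (C2 : ℝ) ^ k * n) := Real.log_le_log hm0' hmC'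
    have c2 : Real.log (C1 * (C2 : ℝ) ^ k * n) = Real.log C1 + k * Real.log C2 + Real.log n := by
      rw [Real.log_mul (by positivity) (by positivity), Real.log_mul (by positivity) (by positivity),
        Real.log_pow]
    have c3 : Real.log C1 ≤ C1 := (Real.log_le_sub_one_of_pos (by linarith)).trans (by linarith)
    have c4 : Real.log C2 ≤ C2 := (Real.log_le_sub_one_of_pos (by linarith)).trans (by linarith)
    have c5 : (k : ℝ) * Real.log C2 ≤ (2 * Real.log n) * C2 := by
      have : 0 ≤ Real.log (C2 : ℝ) := Real.log_nonneg hC2'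
      gcongr
    have c6 : (C1 : ℝ) ≤ C1 * Real.log n := le_mul_of_one_le_right (by linarith) hL.le
    have c7 : (C3 : ℝ) = C1 + 2 * C2 + 1 := by rw [hC3]; push_cast; ring
    rw [c7]
    nlinarith
  refine h2.trans ?_
  rw [← Real.exp_log hm0', ← Real.exp_nat_mul]
  apply Real.exp_le_exp.2
  have hC3' : (1 : ℝ) ≤ C3 := by exact_mod_cast (by omega : 1 ≤ C3)
  have hlm0 : 0 ≤ Real.log m := Real.log_nonneg (by exact_mod_cast (by omega : 1 ≤ m))
  have hfin : (38 * C1 * C3 : ℝ) * (C2 : ℝ) ^ k ≤ ((38 * C1 * C3 * C2 : ℕ) : ℝ) ^ k := by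
    push_cast
    rw [mul_pow]
    have : (38 * C1 * C3 : ℝ) ≤ (38 * C1 * C3 : ℝ) ^ k := by
      apply le_self_pow₀
      · nlinarith
      · omega
    gcongr
  calc ((38 * m : ℕ) : ℝ) * Real.log m
      ≤ (38 * (C1 * (C2 : ℝ) ^ k * n)) * (C3 * Real.log n) := by
        push_cast
        gcongr
    _ = ((38 * C1 * C3 : ℝ) * (C2 : ℝ) ^ k) * n * Real.log n := by ring
    _ ≤ ((38 * C1 * C3 * C2 : ℕ) : ℝ) ^ k * n * Real.log n := by gcongr

/-- `log c(n) ≥ (1/4) n log n` for large `n` -/
theorem cto_log_lower2 : ∀ᶠ n : ℕ in Filter.atTop,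
    (n : ℝ) * Real.log n / 4 ≤ Real.log (cto n) := by
  have hlog : Filter.Tendsto (fun n : ℕ => Real.log (n : ℝ)) Filter.atTop Filter.atTop :=
    Real.tendsto_log_atTop.comp tendsto_natCast_atTop_atTop
  filter_upwards [hlog.eventually_ge_atTop 4, Filter.eventually_ge_atTop 4] with n hn hn4
  obtain ⟨M, rfl⟩ : ∃ M, n = M + 1 := ⟨n - 1, by omega⟩
  have h1 := cto_lower M
  have hfac : ((M + 1).factorial : ℝ) = (M + 1) * (M.factorial : ℝ) := by
    rw [Nat.factorial_succ]
    push_cast
    ring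
  have hfp : (0 : ℝ) < M.factorial := by exact_mod_cast Nat.factorial_pos M
  have h2 : Real.log ((M + 1).factorial : ℝ) = Real.log ((M + 1 : ℕ) : ℝ) +
      Real.log (M.factorial : ℝ) := by
    rw [hfac, Real.log_mul (by positivity) (by positivity)]
    push_cast
    ring
  have h3 := Stirling.le_log_factorial_stirling (n := M + 1) (by omega)
  have h4 : Real.log (M.factorial : ℝ) ≤ Real.log (cto (M + 1)) := by
    apply Real.log_le_log hfp
    exact_mod_cast h1
  set L := Real.log ((M + 1 : ℕ) : ℝ) with hLdef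
  have hpi : 0 ≤ Real.log (2 * Real.pi) := by
    apply Real.log_nonneg
    have := Real.pi_gt_three
    linarith
  have hn4' : (4 : ℝ) ≤ ((M + 1 : ℕ) : ℝ) := by exact_mod_cast hn4
  nlinarith

theorem cto_growth2 : Filter.Tendsto
    (fun n : ℕ => Real.log (Real.log (cto n) / n) / Real.log (Real.log n))
    Filter.atTop (nhds 1) := by
  obtain ⟨K, hK1, hK⟩ := cto_upper2
  have hlog : Filter.Tendsto (fun n : ℕ => Real.log (n : ℝ)) Filter.atTop Filter.atTop :=
    Real.tendsto_log_atTop.comp tendsto_natCast_atTop_atTop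
  have hll : Filter.Tendsto (fun n : ℕ => Real.log (Real.log (n : ℝ))) Filter.atTop
      Filter.atTop := Real.tendsto_log_atTop.comp hlog
  have hlll : Filter.Tendsto (fun n : ℕ => Real.log (Real.log (Real.log (n : ℝ)))) Filter.atTop
      Filter.atTop := Real.tendsto_log_atTop.comp hll
  have hsmall : Filter.Tendsto (fun n : ℕ => Real.log (Real.log (Real.log (n : ℝ))) /
      Real.log (Real.log (n : ℝ))) Filter.atTop (nhds 0) := by
    have h := (Real.isLittleO_log_id_atTop.tendsto_div_nhds_zero).comp hll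
    exact h
  have hc : ∀ c : ℝ, Filter.Tendsto (fun n : ℕ => c / Real.log (Real.log (n : ℝ)))
      Filter.atTop (nhds 0) := fun c => hll.const_div_atTop c
  have hlow : Filter.Tendsto (fun n : ℕ => 1 - Real.log 4 / Real.log (Real.log (n : ℝ)))
      Filter.atTop (nhds 1) := by
    have h := (tendsto_const_nhds (x := (1 : ℝ))).sub (hc (Real.log 4))
    simpa using h
  have hup : Filter.Tendsto (fun n : ℕ => (3 * Real.log K) / Real.log (Real.log (n : ℝ)) +
      Real.log K * (Real.log (Real.log (Real.log (n : ℝ))) / Real.log (Real.log (n : ℝ))) + 1)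
      Filter.atTop (nhds 1) := by
    have h := ((hc (3 * Real.log K)).add (hsmall.const_mul (Real.log K))).add_const 1
    simpa using h
  have hK0 : (1 : ℝ) ≤ K := by exact_mod_cast hK1
  have hlK : 0 ≤ Real.log K := Real.log_nonneg hK0
  refine tendsto_of_tendsto_of_tendsto_of_le_of_le' hlow hup ?_ ?_
  · filter_upwards [cto_log_lower2, hll.eventually_gt_atTop 0, Filter.eventually_ge_atTop 3] with
      n h1 h2 h3
    have hn0 : (0 : ℝ) < n := by
      have : 0 < n := by omega
      exact_mod_cast this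
    have hL := log_gt_one h3
    have h4 : Real.log n / 4 ≤ Real.log (cto n) / n := by
      rw [le_div_iff₀ hn0]
      linarith
    have h5 := Real.log_le_log (by linarith : 0 < Real.log (n : ℝ) / 4) h4
    rw [Real.log_div (by linarith) (by norm_num)] at h5
    rw [le_div_iff₀ h2, sub_mul, one_mul, div_mul_cancel₀ _ h2.ne']
    exact h5
  · filter_upwards [cto_log_lower2, hll.eventually_gt_atTop 0, hlll.eventually_ge_atTop 0,
      Filter.eventually_ge_atTop 3] with n h1 h2 h0 h3
    have hn0 : (0 : ℝ) < n := by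
      have : 0 < n := by omega
      exact_mod_cast this
    have hL := log_gt_one h3
    have hpos : 0 < Real.log (cto n) := lt_of_lt_of_le (by positivity) h1
    have hcpos : (0 : ℝ) < cto n := by
      rcases (Nat.cast_nonneg (α := ℝ) (cto n)).lt_or_eq with h | h
      · exact h
      · rw [← h, Real.log_zero] at hpos
        exact absurd hpos (lt_irrefl _)
    have h4 : Real.log (cto n) ≤ (K : ℝ) ^ logStar n * n * Real.log n := by
      have := Real.log_le_log hcpos (hK n h3)
      rwa [Real.log_exp] at this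
    have h5 : Real.log (cto n) / n ≤ (K : ℝ) ^ logStar n * Real.log n := by
      rw [div_le_iff₀ hn0]
      linarith
    have h6 := Real.log_le_log (by positivity) h5
    rw [Real.log_mul (by positivity) (by linarith), Real.log_pow] at h6
    have h7 : (logStar n : ℝ) ≤ 3 + Real.log (Real.log (Real.log n)) := by
      have a1 : (logStar n : ℝ) ≤ logStar (Real.log n) + 1 := by exact_mod_cast logStar_le_succ n
      have a2 : (logStar (Real.log n) : ℝ) ≤ logStar (Real.log (Real.log n)) + 1 := by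
        exact_mod_cast logStar_le_succ _
      have a3 : (logStar (Real.log (Real.log n)) : ℝ) ≤
          logStar (Real.log (Real.log (Real.log n))) + 1 := by
        exact_mod_cast logStar_le_succ _
      have a4 := logStar_le_self h0
      linarith
    rw [div_le_iff₀ h2]
    have h8 : ((3 * Real.log K) / Real.log (Real.log (n : ℝ)) +
      Real.log K * (Real.log (Real.log (Real.log (n : ℝ))) / Real.log (Real.log (n : ℝ))) + 1) *
        Real.log (Real.log n) = 3 * Real.log K + Real.log K * Real.log (Real.log (Real.log n)) +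
          Real.log (Real.log n) := by
      field_simp
    rw [h8]
    have h9 : (logStar n : ℝ) * Real.log K ≤ (3 + Real.log (Real.log (Real.log n))) * Real.log K :=
      mul_le_mul_of_nonneg_right h7 hlK
    linarith

end Pool.Agent.H54.CT2
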