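import Pool.Agent.H54.CT.Seq

/-!
# Relations without alternations of three letters: almost linear bound

`MatQ L f m`: every relation with columns `< m` and without `Alt L` has at most
`f * (number of letters + m)` pairs.

`mat_step`: blocks of `B` columns.  The relation (letter, block) has no `Alt L`, so `alt_bound`
applies to it; inside the blocks use `MatQ L f B`.
-/

set_option autoImplicit false

namespace Pool.Agent.H54.CT2

open Pool.Agent.H54.CT

variable {α : Type*} [DecidableEq α]

/-- contraction of blocks of `B` columns -/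
def blkR (B : ℕ) (R : Finset (α × ℕ)) : Finset (α × ℕ) := R.image fun r => (r.1, r.2 / B)

theorem alt_of_blkR {L B : ℕ} {R : Finset (α × ℕ)} (h : Alt L (blkR B R)) : Alt L R := by
  have hch : ∀ a c, ∃ x, (a, c) ∈ blkR B R → ((a, x) ∈ R ∧ x / B = c) := by
    intro a c
    by_cases hm : (a, c) ∈ blkR B R
    · obtain ⟨⟨b, d⟩, hbd, he⟩ := Finset.mem_image.1 hm
      have h1 := Prod.ext_iff.1 he
      simp only at h1
      exact ⟨d, fun _ => ⟨by rw [← h1.1]; exact hbd, h1.2⟩⟩
    · exact ⟨0, fun h' => absurd h' hm⟩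
  choose g hg using hch
  refine alt_mono (R := R) (R' := blkR B R) g (fun a c hac => (hg a c hac).1) ?_ h
  intro a c b d hac hbd hcd
  have h1 := (hg a c hac).2
  have h2 := (hg b d hbd).2
  by_contra hle
  have := Nat.div_le_div_right (c := B) (not_lt.1 hle)
  omega

/-- the pairs in the block `t` -/
def inBlk (B t : ℕ) (R : Finset (α × ℕ)) : Finset (α × ℕ) := R.filter fun r => r.2 / B = t

theorem inBlk_sub (B t : ℕ) (R : Finset (α × ℕ)) : inBlk B t R ⊆ R := Finset.filter_subset _ _

theorem inBlk_ge {B t : ℕ} (hB : 0 < B) {R : Finset (α × ℕ)} : ∀ r ∈ inBlk B t R, t * B ≤ r.2 := by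
  intro r hr
  have h := (Finset.mem_filter.1 hr).2
  rw [← h]
  exact Nat.div_mul_le_self _ _

theorem inBlk_lt {B t : ℕ} (hB : 0 < B) {R : Finset (α × ℕ)} :
    ∀ r ∈ inBlk B t R, r.2 < B + t * B := by
  intro r hr
  have h := (Finset.mem_filter.1 hr).2
  have h1 := Nat.lt_div_mul_add (a := r.2) hB
  rw [h] at h1
  omega

theorem sum_inBlk {B M : ℕ} {R : Finset (α × ℕ)} (hM : ∀ r ∈ R, r.2 / B < M) :
    R.card = ∑ t ∈ Finset.range M, (inBlk B t R).card := by
  rw [Finset.card_eq_sum_card_fiberwise (f := fun r => r.2 / B) (t := Finset.range M)]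
  · rfl
  · intro r hr
    exact Finset.mem_coe.2 (Finset.mem_range.2 (hM r hr))

theorem card_blkR {B M : ℕ} {R : Finset (α × ℕ)} (hM : ∀ r ∈ R, r.2 / B < M) :
    (blkR B R).card = ∑ t ∈ Finset.range M, ((inBlk B t R).image Prod.fst).card := by
  rw [Finset.card_eq_sum_card_fiberwise (f := fun r => r.2) (t := Finset.range M)]
  · refine Finset.sum_congr rfl fun t _ => ?_
    refine Finset.card_bij' (fun r _ => r.1) (fun a _ => (a, t)) ?_ ?_ ?_ ?_
    · rintro ⟨a, c⟩ hr
      obtain ⟨h1, h2⟩ := Finset.mem_filter.1 hr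
      simp only at h2
      subst h2
      obtain ⟨r, hr1, hr2⟩ := Finset.mem_image.1 h1
      have h3 := Prod.ext_iff.1 hr2
      simp only at h3
      exact Finset.mem_image.2 ⟨r, Finset.mem_filter.2 ⟨hr1, h3.2⟩, h3.1⟩
    · intro a ha
      obtain ⟨r, hr, rfl⟩ := Finset.mem_image.1 ha
      obtain ⟨h1, h2⟩ := Finset.mem_filter.1 hr
      refine Finset.mem_filter.2 ⟨Finset.mem_image.2 ⟨r, h1, ?_⟩, rfl⟩
      rw [h2]
    · rintro ⟨a, c⟩ hr
      have h2 := (Finset.mem_filter.1 hr).2
      simp only at h2 ⊢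
      rw [h2]
    · intro a _
      rfl
  · intro r hr
    obtain ⟨r', hr', rfl⟩ := Finset.mem_image.1 (Finset.mem_coe.1 hr)
    exact Finset.mem_coe.2 (Finset.mem_range.2 (hM r' hr'))

theorem blkR_letters (B : ℕ) (R : Finset (α × ℕ)) :
    (blkR B R).image Prod.fst = R.image Prod.fst := by
  unfold blkR
  rw [Finset.image_image]
  rfl

/-- the almost linear bound with the factor `f` for `m` columns -/
def MatQ (α : Type*) [DecidableEq α] (L f m : ℕ) : Prop :=
  ∀ R : Finset (α × ℕ), (∀ r ∈ R, r.2 < m) → ¬ Alt L R →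
    R.card ≤ f * ((R.image Prod.fst).card + m)

theorem MatQ.mono {L f f' m : ℕ} (hf : f ≤ f') (h : MatQ α L f m) : MatQ α L f' m :=
  fun R h1 h2 => (h R h1 h2).trans (Nat.mul_le_mul_right _ hf)

theorem matQ_trivial (L m0 m : ℕ) (hm : m ≤ m0) : MatQ α L m0 m := by
  intro R hR _
  have hsub : R ⊆ (R.image Prod.fst) ×ˢ Finset.range m := by
    intro r hr
    rw [Finset.mem_product]
    exact ⟨Finset.mem_image_of_mem _ hr, Finset.mem_range.mpr (hR r hr)⟩
  have h3 := Finset.card_le_card hsub
  rw [Finset.card_product, Finset.card_range] at h3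
  calc R.card ≤ (R.image Prod.fst).card * m := h3
    _ ≤ (R.image Prod.fst).card * m0 := Nat.mul_le_mul_left _ hm
    _ = m0 * (R.image Prod.fst).card := Nat.mul_comm _ _
    _ ≤ m0 * ((R.image Prod.fst).card + m) := Nat.mul_le_mul_left _ (Nat.le_add_right _ _)

/-- the length of the blocks -/
def bet (L m : ℕ) : ℕ := 4 * (Nat.clog 2 m + 1) ^ L

theorem mat_step {L m B f : ℕ} (hL : 2 ≤ L) (hB : bet L m ≤ B) (hBm : B ≤ m)
    (H : MatQ α L f B) : MatQ α L (f * 2 ^ L) m := by
  intro R hR hA
  have hB0 : 0 < B := by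
    have : 0 < bet L m := by unfold bet; positivity
    omega
  have hm0 : 0 < m := lt_of_lt_of_le hB0 hBm
  set M := (m - 1) / B + 1 with hMdef
  have hM : ∀ r ∈ R, r.2 / B < M := by
    intro r hr
    have h1 := hR r hr
    have h2 : r.2 / B ≤ (m - 1) / B := Nat.div_le_div_right (by omega)
    omega
  have hBM : B * M ≤ 2 * m := by
    have h1 : (m - 1) / B * B ≤ m - 1 := Nat.div_mul_le_self _ _
    have h2 : B * M = (m - 1) / B * B + B := by rw [hMdef]; ring
    omega
  -- the contracted relation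
  set p := Nat.clog 2 M with hp
  have hMp : M ≤ 2 ^ p := Nat.le_pow_clog (by norm_num) M
  have hMm : M ≤ m := by
    have h1 : (m - 1) / B ≤ m - 1 := Nat.div_le_self _ _
    omega
  have hpm : p ≤ Nat.clog 2 m := Nat.clog_mono_right 2 hMm
  have hp2 : 2 ^ p ≤ 2 * M := by
    rcases Nat.lt_or_ge 1 M with h1 | h1
    · have h2 := Nat.pow_pred_clog_lt_self (b := 2) one_lt_two h1
      rw [← hp] at h2
      have h3 : 0 < p := by
        rw [hp]
        exact Nat.clog_pos one_lt_two (by omega)
      obtain ⟨q, hq⟩ : ∃ q, p = q + 1 := ⟨p - 1, by omega⟩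
      rw [hq] at h2 ⊢
      simp only [Nat.pred_eq_sub_one, Nat.add_sub_cancel] at h2
      rw [pow_succ]
      omega
    · have h2 : 1 ≤ M := Nat.succ_le_succ (Nat.zero_le _)
      have h3 : M = 1 := le_antisymm h1 h2
      rw [hp, h3]
      simp
  have hcol : ∀ r ∈ blkR B R, r.2 < 2 ^ p := by
    intro r hr
    obtain ⟨r', hr', rfl⟩ := Finset.mem_image.1 hr
    exact lt_of_lt_of_le (hM r' hr') hMp
  have hout := alt_bound L p (blkR B R) hcol (fun h => hA (alt_of_blkR h))
  rw [blkR_letters] at hout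
  have hout2 : (blkR B R).card ≤ 2 ^ L * (R.image Prod.fst).card + 2 * m := by
    have h1 : 2 * (p + 1) ^ L * 2 ^ p ≤ B * M := by
      calc 2 * (p + 1) ^ L * 2 ^ p ≤ 2 * (Nat.clog 2 m + 1) ^ L * (2 * M) := by
            gcongr
        _ = bet L m * M := by unfold bet; ring
        _ ≤ B * M := Nat.mul_le_mul_right _ hB
    omega
  -- the blocks
  have hin : ∀ t, (inBlk B t R).card ≤ f * (((inBlk B t R).image Prod.fst).card + B) := by
    intro t
    have h1 := H (shiftR (t * B) (inBlk B t R)) (shiftR_lt (inBlk_ge hB0) (inBlk_lt hB0))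
      (fun h => hA (alt_subset (inBlk_sub B t R) (alt_of_shiftR (inBlk_ge hB0) h)))
    rw [card_shiftR (inBlk_ge hB0), image_shiftR] at h1
    exact h1
  rw [sum_inBlk hM]
  calc ∑ t ∈ Finset.range M, (inBlk B t R).card
      ≤ ∑ t ∈ Finset.range M, f * (((inBlk B t R).image Prod.fst).card + B) :=
        Finset.sum_le_sum fun t _ => hin t
    _ = f * ((blkR B R).card + B * M) := by
        rw [← Finset.mul_sum, Finset.sum_add_distrib, card_blkR hM, Finset.sum_const,
          Finset.card_range, smul_eq_mul, Nat.mul_comm M B]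
    _ ≤ f * (2 ^ L * (R.image Prod.fst).card + 4 * m) := by
        apply Nat.mul_le_mul_left
        omega
    _ ≤ f * 2 ^ L * ((R.image Prod.fst).card + m) := by
        have h4 : 4 ≤ 2 ^ L := by
          calc 4 = 2 ^ 2 := by norm_num
            _ ≤ 2 ^ L := Nat.pow_le_pow_right (by norm_num) hL
        rw [mul_assoc]
        apply Nat.mul_le_mul_left
        rw [mul_add]
        exact Nat.add_le_add_left (Nat.mul_le_mul_right _ h4) _

end Pool.Agent.H54.CT2
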