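import Pool.Agent.H54.CT2.Star

/-!
# Block decomposition with the almost linear bound

Same proof as `breaks` and `total_bound`, with `MatQ` instead of `alt_bound`.
-/

set_option autoImplicit false

namespace Pool.Agent.H54.CT2

open Pool.Agent.H54.CT

variable {α : Type*} [DecidableEq α]

/-- the constant of the decomposition -/
def rho2 (F : ℕ) : ℕ → ℕ
  | 0 => 0
  | 1 => 0
  | (L + 2) => 4 + rho2 F L * (4 * F)

/-- The bound for the relations that is used: all numbers of columns up to `2 n + 1`. -/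
def Good (α : Type*) [DecidableEq α] (N F n : ℕ) : Prop := ∀ m ≤ 2 * n + 1, MatQ α N F m

theorem seq2_sum {N F n L : ℕ} (hG : Good α N F n) (hL : L + 2 ≤ N) {X C : Finset ℕ} {σ : ℕ → α}
    (hn : (X.image σ).card ≤ n) (hn0 : 0 < (X.image σ).card) (h : ¬ Alt (L + 2) (rel X σ)) :
    ∑ t ∈ Finset.range (2 * (X.image σ).card + 1), ((seqA_blk X C t).image σ).card ≤
      4 * F * (X.image σ).card := by
  classical
  set n' := (X.image σ).card with hndef
  rw [← seqA_card_R2]
  have hcol : ∀ r ∈ seqA_R2 X C σ (2 * n' + 1), r.2 < 2 * n' + 1 := by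
    rintro ⟨a, t⟩ hr
    exact (seqA_mem_R2.1 hr).1
  have hnoalt : ¬ Alt (L + 2) (seqA_R2 X C σ (2 * n' + 1)) := by
    intro hA
    apply h
    let g : α → ℕ → ℕ := fun a t =>
      if hx : ∃ x ∈ seqA_blk X C t, σ x = a then hx.choose else 0
    have hg : ∀ a t, (a, t) ∈ seqA_R2 X C σ (2 * n' + 1) →
        g a t ∈ seqA_blk X C t ∧ σ (g a t) = a := by
      intro a t hat
      have hx := (seqA_mem_R2.1 hat).2
      simp only [g, dif_pos hx]
      exact hx.choose_spec
    refine alt_mono g ?_ ?_ hA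
    · intro a t hat
      obtain ⟨h1, h2⟩ := hg a t hat
      exact seqA_mem_rel.2 ⟨(seqA_mem_blk.1 h1).1.1, h2⟩
    · intro a c b d hac hbd hcd
      have h1 := (seqA_mem_blk.1 (hg a c hac).1).2
      have h2 := (seqA_mem_blk.1 (hg b d hbd).1).2
      by_contra hcon
      have := seqA_kap_mono C (not_lt.1 hcon)
      omega
  have hb := hG (2 * n' + 1) (by omega) _ hcol (fun hA => hnoalt (alt_le hL hA))
  have himg : ((seqA_R2 X C σ (2 * n' + 1)).image Prod.fst).card ≤ n' := by
    apply Finset.card_le_card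
    intro a ha
    rw [Finset.mem_image] at ha
    obtain ⟨⟨a', t⟩, hat, rfl⟩ := ha
    obtain ⟨_, x, hx, hxa⟩ := seqA_mem_R2.1 hat
    exact Finset.mem_image.2 ⟨x, (seqA_mem_blk.1 hx).1.1, hxa⟩
  calc (seqA_R2 X C σ (2 * n' + 1)).card
      ≤ F * (((seqA_R2 X C σ (2 * n' + 1)).image Prod.fst).card + (2 * n' + 1)) := hb
    _ ≤ F * (4 * n') := Nat.mul_le_mul_left _ (by omega)
    _ = 4 * F * n' := by ring

theorem breaks2 {N F n : ℕ} (hG : Good α N F n) (L : ℕ) (hL : L ≤ N) (X : Finset ℕ) (σ : ℕ → α)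
    (hn : (X.image σ).card ≤ n) (h : ¬ Alt L (rel X σ)) :
    ∃ D : Finset ℕ, D.card ≤ rho2 F L * (X.image σ).card ∧
      ∀ x ∈ X, ∀ y ∈ X, ∀ z ∈ X, x < y → y < z → (∀ d ∈ D, ¬ (x < d ∧ d ≤ z)) →
        (σ x = σ y ∨ σ y = σ z ∨ σ x = σ z) := by
  classical
  induction L using Nat.twoStepInduction generalizing X with
  | zero =>
    exact ⟨∅, by simp, fun x hx y hy z hz _ _ _ => seqA_base (by norm_num) h hx hy hz⟩
  | one =>
    exact ⟨∅, by simp, fun x hx y hy z hz _ _ _ => seqA_base le_rfl h hx hy hz⟩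
  | more L ih _ =>
    rcases Finset.eq_empty_or_nonempty X with rfl | hne
    · exact ⟨∅, by simp, fun x hx => absurd hx (Finset.notMem_empty x)⟩
    have hn0 : 0 < (X.image σ).card := Finset.card_pos.2 (hne.image σ)
    let lo : α → ℕ := fun a => if ha : (X.filter fun x => σ x = a).Nonempty then
      (X.filter fun x => σ x = a).min' ha else 0
    let hi : α → ℕ := fun a => if ha : (X.filter fun x => σ x = a).Nonempty then
      (X.filter fun x => σ x = a).max' ha else 0
    let C : Finset ℕ := (X.image σ).image lo ∪ (X.image σ).image hi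
    have hC : C.card ≤ 2 * (X.image σ).card := by
      refine (Finset.card_union_le _ _).trans ?_
      have h1 : ((X.image σ).image lo).card ≤ (X.image σ).card := Finset.card_image_le
      have h2 : ((X.image σ).image hi).card ≤ (X.image σ).card := Finset.card_image_le
      omega
    have hlo : ∀ x ∈ X, lo (σ x) ∈ X ∧ σ (lo (σ x)) = σ x ∧ lo (σ x) ≤ x ∧ lo (σ x) ∈ C := by
      intro x hx
      have hxf : x ∈ X.filter fun y => σ y = σ x := Finset.mem_filter.2 ⟨hx, rfl⟩
      have ha : (X.filter fun y => σ y = σ x).Nonempty := ⟨x, hxf⟩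
      have e : lo (σ x) = (X.filter fun y => σ y = σ x).min' ha := dif_pos ha
      have h1 := Finset.mem_filter.1 (Finset.min'_mem _ ha)
      rw [← e] at h1
      refine ⟨h1.1, h1.2, ?_, ?_⟩
      · rw [e]; exact Finset.min'_le _ _ hxf
      · exact Finset.mem_union_left _ (Finset.mem_image_of_mem _ (Finset.mem_image_of_mem _ hx))
    have hhi : ∀ x ∈ X, hi (σ x) ∈ X ∧ σ (hi (σ x)) = σ x ∧ x ≤ hi (σ x) ∧ hi (σ x) ∈ C := by
      intro x hx
      have hxf : x ∈ X.filter fun y => σ y = σ x := Finset.mem_filter.2 ⟨hx, rfl⟩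
      have ha : (X.filter fun y => σ y = σ x).Nonempty := ⟨x, hxf⟩
      have e : hi (σ x) = (X.filter fun y => σ y = σ x).max' ha := dif_pos ha
      have h1 := Finset.mem_filter.1 (Finset.max'_mem _ ha)
      rw [← e] at h1
      refine ⟨h1.1, h1.2, ?_, ?_⟩
      · rw [e]; exact Finset.le_max' _ _ hxf
      · exact Finset.mem_union_right _ (Finset.mem_image_of_mem _ (Finset.mem_image_of_mem _ hx))
    have hsubX : ∀ t, ((seqA_blk X C t).image σ).card ≤ (X.image σ).card := fun t =>
      Finset.card_le_card (Finset.image_subset_image fun x hx => (seqA_mem_blk.1 hx).1.1)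
    have hIH := fun t => ih (by omega) (seqA_blk X C t) ((hsubX t).trans hn)
      (seqA_block lo hi hlo hhi h t)
    choose D hD1 hD2 using hIH
    refine ⟨(C ∪ C.image (· + 1)) ∪ (Finset.range (2 * (X.image σ).card + 1)).biUnion D, ?_, ?_⟩
    · have h1 := seq2_sum hG hL (C := C) hn hn0 h
      have h2 : ((Finset.range (2 * (X.image σ).card + 1)).biUnion D).card ≤
          rho2 F L * ∑ t ∈ Finset.range (2 * (X.image σ).card + 1),
            ((seqA_blk X C t).image σ).card := by
        refine Finset.card_biUnion_le.trans ?_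
        rw [Finset.mul_sum]
        exact Finset.sum_le_sum fun t _ => hD1 t
      have h3 : (C ∪ C.image (· + 1)).card ≤ 4 * (X.image σ).card := by
        refine (Finset.card_union_le _ _).trans ?_
        have h4 : (C.image (· + 1)).card ≤ C.card := Finset.card_image_le
        omega
      calc _ ≤ (C ∪ C.image (· + 1)).card +
            ((Finset.range (2 * (X.image σ).card + 1)).biUnion D).card := Finset.card_union_le _ _
        _ ≤ 4 * (X.image σ).card + rho2 F L * (4 * F * (X.image σ).card) :=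
            add_le_add h3 (h2.trans (Nat.mul_le_mul_left _ h1))
        _ = rho2 F (L + 2) * (X.image σ).card := by
            show _ = (4 + rho2 F L * (4 * F)) * (X.image σ).card
            ring
    · intro x hx y hy z hz hxy hyz hd
      have hdC : ∀ c ∈ C, ¬ (x < c ∧ c ≤ z) := fun c hc =>
        hd c (Finset.mem_union_left _ (Finset.mem_union_left _ hc))
      have hdC1 : ∀ c ∈ C, ¬ (x < c + 1 ∧ c + 1 ≤ z) := fun c hc =>
        hd (c + 1) (Finset.mem_union_left _ (Finset.mem_union_right _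
          (Finset.mem_image_of_mem (· + 1) hc)))
      have hxC : x ∉ C := fun hc => hdC1 x hc ⟨by omega, by omega⟩
      have hyC : y ∉ C := fun hc => hdC y hc ⟨hxy, hyz.le⟩
      have hzC : z ∉ C := fun hc => hdC z hc ⟨hxy.trans hyz, le_rfl⟩
      have e1 : seqA_kap C x = seqA_kap C z := seqA_kap_eq (by omega) hdC
      have e2 : seqA_kap C x = seqA_kap C y := seqA_kap_eq hxy.le fun c hc h' =>
        hdC c hc ⟨h'.1, h'.2.trans hyz.le⟩
      have ht : seqA_kap C x < 2 * (X.image σ).card + 1 := by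
        have := seqA_kap_le C x
        omega
      refine hD2 (seqA_kap C x) x (seqA_mem_blk.2 ⟨⟨hx, hxC⟩, rfl⟩) y
        (seqA_mem_blk.2 ⟨⟨hy, hyC⟩, e2.symm⟩) z (seqA_mem_blk.2 ⟨⟨hz, hzC⟩, e1.symm⟩) hxy hyz ?_
      intro d hd'
      exact hd d (Finset.mem_union_right _ (Finset.mem_biUnion.2
        ⟨_, Finset.mem_range.2 ht, hd'⟩))

theorem card_le_blkR {B : ℕ} (hB : 0 < B) (R : Finset (α × ℕ)) :
    R.card ≤ B * (blkR B R).card := by
  refine Finset.card_le_mul_card_image R B fun e _ => ?_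
  obtain ⟨a, c⟩ := e
  have h1 : (R.filter fun x => (x.1, x.2 / B) = (a, c)).card ≤
      ((Finset.range B).image fun i => (a, c * B + i)).card := by
    apply Finset.card_le_card
    rintro ⟨b, d⟩ hr
    obtain ⟨_, h2⟩ := Finset.mem_filter.1 hr
    have h3 := Prod.ext_iff.1 h2
    simp only at h3
    rw [Finset.mem_image]
    refine ⟨d % B, Finset.mem_range.2 (Nat.mod_lt _ hB), ?_⟩
    rw [← h3.1, ← h3.2]
    ext
    · rfl
    · simp only
      rw [Nat.mul_comm]
      exact Nat.div_add_mod d B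
  refine h1.trans (Finset.card_image_le.trans ?_)
  rw [Finset.card_range]

/-- the bound for the number of positions, divided by `n` -/
def Phi2 (N F : ℕ) : ℕ := 24 * (rho2 F N + 1) * F

theorem total_bound2 {N F n : ℕ} (hG : Good α N F n) (X : Finset ℕ) (i j : ℕ → α)
    (hi : (X.image i).card ≤ n) (hj : (X.image j).card ≤ n)
    (ai : ¬ Alt N (rel X i)) (aj : ¬ Alt N (rel X j))
    (h3 : ∀ a b, (X.filter fun t => i t = a ∧ j t = b).card ≤ 3) :
    X.card ≤ n * Phi2 N F := by
  rcases Nat.eq_zero_or_pos n with hn0 | hn1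
  · have h1 : X.image i = ∅ := Finset.card_eq_zero.1 (by omega)
    have h2 : X = ∅ := Finset.image_eq_empty.1 h1
    rw [h2]
    simp
  obtain ⟨D, hD, hbr⟩ := breaks2 hG N le_rfl X i hi ai
  have hD' : D.card ≤ rho2 F N * n := hD.trans (Nat.mul_le_mul_left _ hi)
  unfold Phi2
  generalize rho2 F N = r at hD' ⊢
  set R : Finset (α × ℕ) := X.image (fun x => (j x, seqB_cnt D x)) with hRdef
  -- no alternation
  have hRalt : ¬ Alt N R := by
    intro hA
    apply aj
    have hch : ∀ a c, ∃ x, (a, c) ∈ R → (x ∈ X ∧ j x = a ∧ seqB_cnt D x = c) := by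
      intro a c
      by_cases h : (a, c) ∈ R
      · obtain ⟨x, hx, hxe⟩ := Finset.mem_image.1 h
        have h1 := Prod.ext_iff.1 hxe
        exact ⟨x, fun _ => ⟨hx, h1.1, h1.2⟩⟩
      · exact ⟨0, fun h' => absurd h' h⟩
    choose g hg using hch
    refine alt_mono (R := rel X j) (R' := R) g ?_ ?_ hA
    · intro a c hac
      obtain ⟨h1, h2, h3⟩ := hg a c hac
      unfold rel
      exact Finset.mem_image.2 ⟨g a c, h1, by rw [h2]⟩
    · intro a c b d hac hbd hcd
      obtain ⟨h1, h2, h3⟩ := hg a c hac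
      obtain ⟨h4, h5, h6⟩ := hg b d hbd
      by_contra hle
      have := seqB_cnt_mono D (not_lt.1 hle)
      omega
  -- the fibres
  have hfib : ∀ e ∈ R, (X.filter fun x => (j x, seqB_cnt D x) = e).card ≤ 6 := by
    rintro ⟨b, t⟩ _
    set S : Finset ℕ := X.filter fun x => (j x, seqB_cnt D x) = (b, t) with hS
    have hmem : ∀ x ∈ S, x ∈ X ∧ j x = b ∧ seqB_cnt D x = t := by
      intro x hx
      obtain ⟨h1, h2⟩ := Finset.mem_filter.1 hx
      have h3 := Prod.ext_iff.1 h2
      exact ⟨h1, h3.1, h3.2⟩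
    have key : ∀ x ∈ S, ∀ y ∈ S, ∀ z ∈ S, x < y → y < z → i x ≠ i y → i y ≠ i z → i x ≠ i z →
        False := by
      intro x hx y hy z hz hxy hyz n1 n2 n3
      obtain ⟨x1, x2, x3⟩ := hmem x hx
      obtain ⟨y1, y2, y3⟩ := hmem y hy
      obtain ⟨z1, z2, z3⟩ := hmem z hz
      rcases hbr x x1 y y1 z z1 hxy hyz
        (seqB_cnt_eq D (hxy.trans hyz).le (x3.trans z3.symm)) with h | h | h
      · exact n1 h
      · exact n2 h
      · exact n3 h
    have hlab : (S.image i).card ≤ 2 := by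
      by_contra hgt
      obtain ⟨a, ha, b', hb, c, hc, hab, hac, hbc⟩ := Finset.two_lt_card.1 (not_le.1 hgt)
      obtain ⟨x, hx, rfl⟩ := Finset.mem_image.1 ha
      obtain ⟨y, hy, rfl⟩ := Finset.mem_image.1 hb
      obtain ⟨z, hz, rfl⟩ := Finset.mem_image.1 hc
      have hxy : x ≠ y := fun h => hab (by rw [h])
      have hxz : x ≠ z := fun h => hac (by rw [h])
      have hyz : y ≠ z := fun h => hbc (by rw [h])
      rcases lt_or_gt_of_ne hxy with h1 | h1
      · rcases lt_or_gt_of_ne hyz with h2 | h2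
        · exact key x hx y hy z hz h1 h2 hab hbc hac
        · rcases lt_or_gt_of_ne hxz with h3 | h3
          · exact key x hx z hz y hy h3 h2 hac hbc.symm hab
          · exact key z hz x hx y hy h3 h1 hac.symm hab hbc.symm
      · rcases lt_or_gt_of_ne hxz with h2 | h2
        · exact key y hy x hx z hz h1 h2 hab.symm hac hbc
        · rcases lt_or_gt_of_ne hyz with h3 | h3
          · exact key y hy z hz x hx h3 h2 hbc hac.symm hab.symm
          · exact key z hz y hy x hx h3 h1 hbc.symm hab.symm hac.symm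
    have h4 : S.card ≤ 3 * (S.image i).card := by
      refine Finset.card_le_mul_card_image S 3 fun a _ => ?_
      refine le_trans (Finset.card_le_card fun x hx => ?_) (h3 a b)
      obtain ⟨h5, h6⟩ := Finset.mem_filter.1 hx
      obtain ⟨h7, h8, _⟩ := hmem x h5
      exact Finset.mem_filter.2 ⟨h7, h6, h8⟩
    omega
  have hX : X.card ≤ 6 * R.card := Finset.card_le_mul_card_image X 6 hfib
  -- contract blocks of `r + 1` columns
  have hRcol : ∀ e ∈ R, e.2 ≤ r * n := by
    intro e he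
    obtain ⟨x, _, rfl⟩ := Finset.mem_image.1 he
    exact (seqB_cnt_le D x).trans hD'
  have hcol2 : ∀ e ∈ blkR (r + 1) R, e.2 < 2 * n + 1 := by
    intro e he
    obtain ⟨x, hx, rfl⟩ := Finset.mem_image.1 he
    have h5 : x.2 / (r + 1) ≤ (n * (r + 1)) / (r + 1) := by
      apply Nat.div_le_div_right
      have := hRcol x hx
      nlinarith
    rw [Nat.mul_div_cancel _ (Nat.succ_pos r)] at h5
    show x.2 / (r + 1) < 2 * n + 1
    omega
  have hb := hG (2 * n + 1) le_rfl (blkR (r + 1) R) hcol2 (fun h => hRalt (alt_of_blkR h))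
  rw [blkR_letters] at hb
  have hRf : (R.image Prod.fst).card ≤ n := by
    refine le_trans (Finset.card_le_card fun a ha => ?_) hj
    obtain ⟨e, he, rfl⟩ := Finset.mem_image.1 ha
    obtain ⟨x, hx, rfl⟩ := Finset.mem_image.1 he
    exact Finset.mem_image.2 ⟨x, hx, rfl⟩
  calc X.card ≤ 6 * R.card := hX
    _ ≤ 6 * ((r + 1) * (blkR (r + 1) R).card) :=
        Nat.mul_le_mul_left _ (card_le_blkR (Nat.succ_pos r) R)
    _ ≤ 6 * ((r + 1) * (F * ((R.image Prod.fst).card + (2 * n + 1)))) := by gcongr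
    _ ≤ 6 * ((r + 1) * (F * (4 * n))) := by gcongr; omega
    _ = n * (24 * (r + 1) * F) := by ring

theorem rho2_le {F : ℕ} (hF : 1 ≤ F) (L : ℕ) : rho2 F L ≤ (8 * F) ^ L := by
  induction L using Nat.twoStepInduction with
  | zero => exact Nat.zero_le _
  | one => exact Nat.zero_le _
  | more L ih _ =>
    have h1 : 1 ≤ (8 * F) ^ L := Nat.one_le_pow _ _ (by omega)
    show 4 + rho2 F L * (4 * F) ≤ (8 * F) ^ (L + 2)
    calc 4 + rho2 F L * (4 * F) ≤ 4 + (8 * F) ^ L * (4 * F) := by gcongr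
      _ ≤ 4 * ((8 * F) ^ L * F) + (8 * F) ^ L * (4 * F) := by
          have : 1 ≤ (8 * F) ^ L * F := Nat.one_le_iff_ne_zero.2 (by positivity)
          omega
      _ = (8 * F) ^ L * (8 * F) := by ring
      _ ≤ (8 * F) ^ L * (8 * F) * (8 * F) := Nat.le_mul_of_pos_right _ (by omega)
      _ = (8 * F) ^ (L + 2) := by ring

theorem Phi2_le {F : ℕ} (hF : 1 ≤ F) (N : ℕ) : Phi2 N F ≤ (8 * F) ^ (N + 2) := by
  unfold Phi2
  have h1 := rho2_le hF N
  have h2 : 1 ≤ (8 * F) ^ N := Nat.one_le_pow _ _ (by omega)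
  calc 24 * (rho2 F N + 1) * F ≤ 24 * ((8 * F) ^ N + (8 * F) ^ N) * F := by gcongr
    _ = (8 * F) ^ N * (48 * F) := by ring
    _ ≤ (8 * F) ^ N * (64 * F * F) := by
        apply Nat.mul_le_mul_left
        nlinarith
    _ = (8 * F) ^ (N + 2) := by ring

theorem good_of_iter {L m0 : ℕ} (hL : 2 ≤ L) (hm0 : ∀ m ≥ m0, bet L m ≤ m ∧
    bet L (bet L m) ≤ Nat.log 2 m) {k n : ℕ} (hk : (Nat.log 2)^[k] (2 * n + 1) ≤ m0) :
    Good α L (m0 * (2 ^ L * 2 ^ L) ^ k) n := by
  intro m hm
  apply matQ_iter hL hm0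
  refine le_trans ?_ hk
  have hmono : Monotone (Nat.log 2) := fun a b hab => Nat.log_mono_right hab
  exact (hmono.iterate k) hm

end Pool.Agent.H54.CT2
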