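import Pool.Agent.H54.CT2.Mat2

/-!
# The iterated logarithm and the almost linear bound for relations
-/

set_option autoImplicit false

namespace Pool.Agent.H54.CT2

open Pool.Agent.H54.CT

/-- exponentials beat polynomials -/
theorem exp_beats (a b L : ℕ) : ∃ z0 : ℕ, ∀ z ≥ z0, a * (b + b * z) ^ L ≤ 2 ^ z := by
  have h := tendsto_pow_const_div_const_pow_of_one_lt L (r := (2 : ℝ)) (by norm_num)
  set c : ℝ := (a : ℝ) * (2 * b : ℝ) ^ L + 1 with hc
  have hcpos : 0 < c := by positivity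
  have h1 : ∀ᶠ z : ℕ in Filter.atTop, (z : ℝ) ^ L / 2 ^ z < 1 / c :=
    h.eventually_lt_const (by positivity)
  obtain ⟨z0, hz0⟩ := Filter.eventually_atTop.1 h1
  refine ⟨max z0 1, fun z hz => ?_⟩
  have hz1 : 1 ≤ z := le_trans (le_max_right _ _) hz
  have h2 := hz0 z (le_trans (le_max_left _ _) hz)
  have h3 : (0 : ℝ) < 2 ^ z := by positivity
  rw [div_lt_div_iff₀ h3 hcpos, one_mul] at h2
  have h4 : ((a * (b + b * z) ^ L : ℕ) : ℝ) ≤ ((2 ^ z : ℕ) : ℝ) := by
    push_cast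
    have h5 : ((b : ℝ) + b * z) ^ L ≤ (2 * b * z) ^ L := by
      have : (1 : ℝ) ≤ z := by exact_mod_cast hz1
      have hb : (0 : ℝ) ≤ b := Nat.cast_nonneg _
      gcongr
      nlinarith
    calc (a : ℝ) * ((b : ℝ) + b * z) ^ L ≤ a * (2 * b * z) ^ L := by gcongr
      _ = (a * (2 * b : ℝ) ^ L) * (z : ℝ) ^ L := by rw [mul_pow]; ring
      _ ≤ c * (z : ℝ) ^ L := by
          rw [hc]
          gcongr
          linarith
      _ ≤ 2 ^ z := by linarith
  exact_mod_cast h4

theorem clog_le_log_succ (m : ℕ) : Nat.clog 2 m ≤ Nat.log 2 m + 1 := by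
  apply Nat.clog_le_of_le_pow
  exact (Nat.lt_pow_succ_log_self (by norm_num) m).le

/-- the threshold -/
theorem exists_thr (L : ℕ) : ∃ m0 : ℕ, 4 ≤ m0 ∧ ∀ m ≥ m0, bet L m ≤ m ∧
    bet L (bet L m) ≤ Nat.log 2 m := by
  obtain ⟨x0, hx0⟩ := exp_beats 4 2 L
  obtain ⟨z0, hz0⟩ := exp_beats 16 (L + 3) L
  refine ⟨2 ^ (max x0 (2 ^ (z0 + 2)) + 2), ?_, fun m hm => ?_⟩
  · calc 4 = 2 ^ 2 := by norm_num
      _ ≤ _ := Nat.pow_le_pow_right (by norm_num) (by omega)
  set x := Nat.log 2 m with hx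
  have hm0 : m ≠ 0 := by
    have : 0 < 2 ^ (max x0 (2 ^ (z0 + 2)) + 2) := by positivity
    omega
  have hxge : max x0 (2 ^ (z0 + 2)) + 2 ≤ x := by
    rw [hx]
    exact Nat.le_log_of_pow_le (by norm_num) hm
  have hclog : Nat.clog 2 m ≤ x + 1 := clog_le_log_succ m
  have hbet : bet L m ≤ 4 * (x + 2) ^ L := by
    unfold bet
    exact Nat.mul_le_mul_left 4 (Nat.pow_le_pow_left (by omega) L)
  refine ⟨?_, ?_⟩
  · calc bet L m ≤ 4 * (x + 2) ^ L := hbet
      _ ≤ 4 * (2 + 2 * x) ^ L := Nat.mul_le_mul_left 4 (Nat.pow_le_pow_left (by omega) L)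
      _ ≤ 2 ^ x := hx0 x (by omega)
      _ ≤ m := Nat.pow_log_le_self 2 hm0
  · -- z = clog (x + 2)
    set z := Nat.clog 2 (x + 2) with hz
    have hz1 : x + 2 ≤ 2 ^ z := Nat.le_pow_clog (by norm_num) _
    have hz2 : 2 ^ (z - 1) < x + 2 := by
      have := Nat.pow_pred_clog_lt_self (b := 2) one_lt_two (x := x + 2) (by omega)
      rw [← hz] at this
      simpa [Nat.pred_eq_sub_one] using this
    have hzge : z0 + 2 ≤ z := by
      have h1 : 2 ^ (z0 + 2) ≤ x + 2 := by
        have := le_max_right x0 (2 ^ (z0 + 2))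
        omega
      have h2 : 2 ^ (z0 + 2) ≤ 2 ^ z := h1.trans hz1
      exact (Nat.pow_le_pow_iff_right (by norm_num)).1 h2
    have hc2 : Nat.clog 2 (bet L m) ≤ 2 + L * z := by
      apply Nat.clog_le_of_le_pow
      calc bet L m ≤ 4 * (x + 2) ^ L := hbet
        _ ≤ 4 * (2 ^ z) ^ L := by gcongr
        _ = 2 ^ (2 + L * z) := by rw [← pow_mul, pow_add, mul_comm z L]; norm_num
    have h3 : bet L (bet L m) ≤ 4 * (3 + L * z) ^ L := by
      have h3' : bet L (bet L m) = 4 * (Nat.clog 2 (bet L m) + 1) ^ L := rfl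
      rw [h3']
      exact Nat.mul_le_mul_left 4 (Nat.pow_le_pow_left (by omega) L)
    have h4 : 4 * (4 * (3 + L * z) ^ L) ≤ 2 ^ z := by
      calc 4 * (4 * (3 + L * z) ^ L) = 16 * (3 + L * z) ^ L := by ring
        _ ≤ 16 * ((L + 3) + (L + 3) * z) ^ L := by
            refine Nat.mul_le_mul_left 16 (Nat.pow_le_pow_left ?_ L)
            nlinarith
        _ ≤ 2 ^ z := hz0 z (by omega)
    have h5 : 2 ^ z = 2 * 2 ^ (z - 1) := by
      obtain ⟨q, hq⟩ : ∃ q, z = q + 1 := ⟨z - 1, by omega⟩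
      rw [hq, Nat.add_sub_cancel]
      ring
    have h6 : 1 ≤ 4 * (3 + L * z) ^ L := by
      have : 0 < (3 + L * z) ^ L := by positivity
      omega
    have h7 : 2 ≤ 2 ^ (z - 1) := by
      calc 2 = 2 ^ 1 := by norm_num
        _ ≤ 2 ^ (z - 1) := Nat.pow_le_pow_right (by norm_num) (by omega)
    omega

theorem log_le_bet {L m : ℕ} (hL : 2 ≤ L) : Nat.log 2 m ≤ bet L m := by
  have h1 : Nat.log 2 m ≤ Nat.clog 2 m := Nat.log_le_clog 2 m
  have h2 : Nat.clog 2 m + 1 ≤ (Nat.clog 2 m + 1) ^ L := by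
    calc Nat.clog 2 m + 1 = (Nat.clog 2 m + 1) ^ 1 := (pow_one _).symm
      _ ≤ (Nat.clog 2 m + 1) ^ L := Nat.pow_le_pow_right (by omega) (by omega)
  unfold bet
  omega

variable {α : Type*} [DecidableEq α]

theorem matQ_iter {L m0 : ℕ} (hL : 2 ≤ L) (hm0 : ∀ m ≥ m0, bet L m ≤ m ∧
    bet L (bet L m) ≤ Nat.log 2 m) : ∀ k m, (Nat.log 2)^[k] m ≤ m0 →
      MatQ α L (m0 * (2 ^ L * 2 ^ L) ^ k) m := by
  intro k
  induction k with
  | zero =>
    intro m hm
    rw [pow_zero, mul_one]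
    exact matQ_trivial L m0 m hm
  | succ k ih =>
    intro m hm
    rw [Function.iterate_succ_apply] at hm
    rcases Nat.lt_or_ge m m0 with h | h
    · refine (matQ_trivial L m0 m h.le).mono ?_
      exact Nat.le_mul_of_pos_right _ (by positivity)
    · obtain ⟨h1, h2⟩ := hm0 m h
      have h3 := mat_step hL h2 (log_le_bet hL) (ih _ hm)
      have h4 := mat_step hL le_rfl h1 h3
      refine h4.mono (le_of_eq ?_)
      rw [pow_succ]
      ring

/-- the iterated logarithm: the least `k` such that the `k`-fold logarithm of `x` is at most `1` -/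
noncomputable def logStar (x : ℝ) : ℕ := sInf {k : ℕ | Real.log^[k] x ≤ 1}

theorem exists_iter (N : ℕ) : ∀ x : ℝ, x ≤ N + 1 → ∃ k ≤ N, Real.log^[k] x ≤ 1 := by
  induction N with
  | zero =>
    intro x hx
    exact ⟨0, le_rfl, by simpa using hx⟩
  | succ N ih =>
    intro x hx
    rcases le_or_gt x 1 with h | h
    · exact ⟨0, by omega, by simpa using h⟩
    · have h1 : Real.log x ≤ N + 1 := by
        have := Real.log_le_sub_one_of_pos (by linarith : (0 : ℝ) < x)
        push_cast at hx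
        linarith
      obtain ⟨k, hk, hk2⟩ := ih _ h1
      exact ⟨k + 1, by omega, by rw [Function.iterate_succ_apply]; exact hk2⟩

theorem logStar_nonempty (x : ℝ) : {k : ℕ | Real.log^[k] x ≤ 1}.Nonempty := by
  obtain ⟨N, hN⟩ := exists_nat_ge x
  obtain ⟨k, -, hk⟩ := exists_iter N x (by linarith)
  exact ⟨k, hk⟩

theorem logStar_spec (x : ℝ) : Real.log^[logStar x] x ≤ 1 := Nat.sInf_mem (logStar_nonempty x)

theorem logStar_le {x : ℝ} {k : ℕ} (h : Real.log^[k] x ≤ 1) : logStar x ≤ k := Nat.sInf_le h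

theorem logStar_le_succ (x : ℝ) : logStar x ≤ logStar (Real.log x) + 1 := by
  apply logStar_le
  rw [Function.iterate_succ_apply]
  exact logStar_spec _

theorem logStar_le_nat {x : ℝ} {N : ℕ} (h : x ≤ N + 1) : logStar x ≤ N := by
  obtain ⟨k, hk, hk2⟩ := exists_iter N x h
  exact (logStar_le hk2).trans hk

theorem logStar_le_self {x : ℝ} (hx : 0 ≤ x) : (logStar x : ℝ) ≤ x := by
  rcases le_or_gt x 1 with h | h
  · have h1 : logStar x ≤ 0 := logStar_le_nat (by simpa using h)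
    have h2 : logStar x = 0 := by omega
    rw [h2]
    simpa using hx
  · have h0 : 1 < ⌈x⌉₊ ∨ 1 = ⌈x⌉₊ := by
      have : 0 < ⌈x⌉₊ := Nat.ceil_pos.2 (by linarith)
      omega
    have h1 : 1 ≤ ⌈x⌉₊ := by omega
    have h2 : logStar x ≤ ⌈x⌉₊ - 1 := by
      apply logStar_le_nat
      rw [Nat.cast_sub h1]
      have := Nat.le_ceil x
      push_cast
      linarith
    have h3 : ((⌈x⌉₊ - 1 : ℕ) : ℝ) ≤ x := by
      rw [Nat.cast_sub h1]
      have := Nat.ceil_lt_add_one hx
      push_cast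
      linarith
    have h4 : (logStar x : ℝ) ≤ ((⌈x⌉₊ - 1 : ℕ) : ℝ) := by exact_mod_cast h2
    linarith

theorem iter_log_le (k : ℕ) : ∀ (x : ℝ) (m : ℕ), Real.log^[k] x ≤ 1 → (m : ℝ) ≤ 4 * max x 1 →
    (Nat.log 2)^[k] m ≤ 4 := by
  induction k with
  | zero =>
    intro x m hx hm
    simp only [Function.iterate_zero, id_eq] at hx ⊢
    rw [max_eq_right hx, mul_one] at hm
    exact_mod_cast hm
  | succ k ih =>
    intro x m hx hm
    rw [Function.iterate_succ_apply] at hx ⊢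
    refine ih (Real.log x) _ hx ?_
    rcases Nat.eq_zero_or_pos m with h0 | h0
    · rw [h0]
      have : (0 : ℝ) ≤ 4 * max (Real.log x) 1 := by positivity
      simpa using this
    · have h1 : (2 : ℝ) ^ Nat.log 2 m ≤ m := by
        exact_mod_cast Nat.pow_log_le_self 2 (by omega : m ≠ 0)
      have h2 := Real.log_le_log (by positivity) (h1.trans hm)
      have hmax : (0 : ℝ) < max x 1 := lt_max_of_lt_right one_pos
      rw [Real.log_pow, Real.log_mul (by norm_num) hmax.ne'] at h2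
      have h3 : Real.log 4 = 2 * Real.log 2 := by
        rw [show (4 : ℝ) = 2 ^ 2 by norm_num, Real.log_pow]
        norm_num
      rw [h3] at h2
      have h4 : Real.log (max x 1) ≤ max (Real.log x) 1 := by
        rcases le_total x 1 with h | h
        · rw [max_eq_right h, Real.log_one]
          positivity
        · rw [max_eq_left h]
          exact le_max_left _ _
      have h5 : (1 : ℝ) ≤ max (Real.log x) 1 := le_max_right _ _
      have h6 := Real.log_two_gt_d9
      have h7 : (Nat.log 2 m : ℝ) * Real.log 2 ≤ 4 * max (Real.log x) 1 * Real.log 2 := by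
        nlinarith
      exact le_of_mul_le_mul_right h7 (by linarith)

end Pool.Agent.H54.CT2
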